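import Pool.Agent.H689.MM.Final

/-!
Polynomial-size matching-mimicking networks exist.
-/

namespace Pool.Agent.Results.MP_b98b77_co.PolyMimicking

universe u

/-- Every terminal network `(G, T)` has a matching-mimicking network `(G', T)` with at most
`232 * |T| ^ 8 + 1` vertices. Here `G` is any finite simple graph on `V`, `T` is any set of
vertices, and the terminals are identified with vertices of `G'` by the injection `e`. `G - S` is the
induced subgraph on the complement of `S`. -/
theorem result {V : Type u} [Fintype V] (G : SimpleGraph V) (T : Set V) :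
    ∃ (V' : Type) (_ : Fintype V') (G' : SimpleGraph V') (e : T ↪ V'),
      Fintype.card V' ≤ 232 * T.ncard ^ 8 + 1 ∧
      ∀ S : Set T,
        (∃ M : (G.induce (Subtype.val '' S)ᶜ).Subgraph, M.IsPerfectMatching) ↔
          ∃ M : (G'.induce (e '' S)ᶜ).Subgraph, M.IsPerfectMatching :=
  Pool.Agent.H689.MM.final G T

end Pool.Agent.Results.MP_b98b77_co.PolyMimicking
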